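import Mathlib

set_option autoImplicit false

/-! Primitive recursive integer arithmetic, and the search used for minimum-length multiples. -/

namespace H110.ML

theorem encode_int_ofNat (n : ℕ) : Encodable.encode (n : ℤ) = 2 * n := rfl
theorem encode_int_negSucc (n : ℕ) : Encodable.encode (Int.negSucc n) = 2 * n + 1 := rfl

theorem prim_toNat : Primrec Int.toNat := by
  have h : Primrec (fun n : ℕ => if n % 2 = 0 then n / 2 else 0) := by
    refine Primrec.ite ?_ ?_ (Primrec.const 0)
    · exact Primrec.eq.comp (Primrec.nat_mod.comp Primrec.id (Primrec.const 2)) (Primrec.const 0)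
    · exact Primrec.nat_div.comp Primrec.id (Primrec.const 2)
  refine (h.comp Primrec.encode).of_eq fun z => ?_
  cases z with
  | ofNat n =>
    show (if (Encodable.encode (n : ℤ)) % 2 = 0 then (Encodable.encode (n : ℤ)) / 2 else 0) = n
    rw [encode_int_ofNat, if_pos (by omega)]; omega
  | negSucc n =>
    show (if (Encodable.encode (Int.negSucc n)) % 2 = 0 then (Encodable.encode (Int.negSucc n)) / 2 else 0) = 0
    rw [encode_int_negSucc, if_neg (by omega)]

theorem prim_toNat_neg : Primrec (fun z : ℤ => (-z).toNat) := by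
  have h : Primrec (fun n : ℕ => if n % 2 = 0 then 0 else n / 2 + 1) := by
    refine Primrec.ite ?_ (Primrec.const 0) ?_
    · exact Primrec.eq.comp (Primrec.nat_mod.comp Primrec.id (Primrec.const 2)) (Primrec.const 0)
    · exact Primrec.succ.comp (Primrec.nat_div.comp Primrec.id (Primrec.const 2))
  refine (h.comp Primrec.encode).of_eq fun z => ?_
  cases z with
  | ofNat n =>
    show (if (Encodable.encode (n : ℤ)) % 2 = 0 then 0 else (Encodable.encode (n : ℤ)) / 2 + 1) = (-(n:ℤ)).toNat
    rw [encode_int_ofNat, if_pos (by omega)]; omega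
  | negSucc n =>
    show (if (Encodable.encode (Int.negSucc n)) % 2 = 0 then 0 else (Encodable.encode (Int.negSucc n)) / 2 + 1) =
      (-(Int.negSucc n)).toNat
    rw [encode_int_negSucc, if_neg (by omega)]
    rw [Int.neg_negSucc]
    simp
    omega

theorem prim_natSub : Primrec₂ (fun p q : ℕ => (p : ℤ) - (q : ℤ)) := by
  have h : Primrec₂ (fun p q : ℕ => if q ≤ p then 2 * (p - q) else 2 * (q - p) - 1) := by
    refine Primrec.ite ?_ ?_ ?_
    · exact Primrec.nat_le.comp Primrec.snd Primrec.fst
    · exact Primrec.nat_mul.comp (Primrec.const 2) (Primrec.nat_sub.comp Primrec.fst Primrec.snd)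
    · exact Primrec.nat_sub.comp (Primrec.nat_mul.comp (Primrec.const 2)
        (Primrec.nat_sub.comp Primrec.snd Primrec.fst)) (Primrec.const 1)
  refine Primrec.encode_iff.1 (Primrec.of_eq (α := ℕ × ℕ) h fun a => ?_)
  obtain ⟨p, q⟩ := a
  show (if q ≤ p then 2 * (p - q) else 2 * (q - p) - 1) = Encodable.encode ((p : ℤ) - (q : ℤ))
  split_ifs with hq
  · have : (p : ℤ) - q = ((p - q : ℕ) : ℤ) := by omega
    rw [this, encode_int_ofNat]
  · have : (p : ℤ) - q = Int.negSucc (q - p - 1) := by
      rw [Int.negSucc_eq]; omega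
    rw [this, encode_int_negSucc]; omega

theorem prim_int_of_parts (f : ℤ → ℤ → ℤ) (P N : ℕ → ℕ → ℕ → ℕ → ℕ)
    (hP : Primrec (fun a : (ℕ × ℕ) × (ℕ × ℕ) => P a.1.1 a.1.2 a.2.1 a.2.2))
    (hN : Primrec (fun a : (ℕ × ℕ) × (ℕ × ℕ) => N a.1.1 a.1.2 a.2.1 a.2.2))
    (h : ∀ x y, f x y = (P x.toNat (-x).toNat y.toNat (-y).toNat : ℤ) -
      (N x.toNat (-x).toNat y.toNat (-y).toNat : ℤ)) : Primrec₂ f := by
  have hx : Primrec (fun a : ℤ × ℤ => ((a.1.toNat, (-a.1).toNat), (a.2.toNat, (-a.2).toNat))) :=
    Primrec.pair (Primrec.pair (prim_toNat.comp Primrec.fst) (prim_toNat_neg.comp Primrec.fst))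
      (Primrec.pair (prim_toNat.comp Primrec.snd) (prim_toNat_neg.comp Primrec.snd))
  refine (prim_natSub.comp (hP.comp hx) (hN.comp hx)).of_eq fun a => ?_
  exact (h a.1 a.2).symm

theorem prim_int_add : Primrec₂ (fun x y : ℤ => x + y) := by
  refine prim_int_of_parts _ (fun a b c d => a + c) (fun a b c d => b + d) ?_ ?_ ?_
  · exact Primrec.nat_add.comp (Primrec.fst.comp Primrec.fst) (Primrec.fst.comp Primrec.snd)
  · exact Primrec.nat_add.comp (Primrec.snd.comp Primrec.fst) (Primrec.snd.comp Primrec.snd)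
  · intro x y; push_cast; omega

theorem prim_int_mul : Primrec₂ (fun x y : ℤ => x * y) := by
  refine prim_int_of_parts _ (fun a b c d => a * c + b * d) (fun a b c d => a * d + b * c) ?_ ?_ ?_
  · exact Primrec.nat_add.comp
      (Primrec.nat_mul.comp (Primrec.fst.comp Primrec.fst) (Primrec.fst.comp Primrec.snd))
      (Primrec.nat_mul.comp (Primrec.snd.comp Primrec.fst) (Primrec.snd.comp Primrec.snd))
  · exact Primrec.nat_add.comp
      (Primrec.nat_mul.comp (Primrec.fst.comp Primrec.fst) (Primrec.snd.comp Primrec.snd))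
      (Primrec.nat_mul.comp (Primrec.snd.comp Primrec.fst) (Primrec.fst.comp Primrec.snd))
  · intro x y
    push_cast
    have hx : x = (x.toNat : ℤ) - ((-x).toNat : ℤ) := by omega
    have hy : y = (y.toNat : ℤ) - ((-y).toNat : ℤ) := by omega
    generalize (x.toNat : ℤ) = a at *
    generalize ((-x).toNat : ℤ) = b at *
    generalize (y.toNat : ℤ) = c at *
    generalize ((-y).toNat : ℤ) = d at *
    rw [hx, hy]
    ring

theorem prim_natAbs : Primrec Int.natAbs := by
  refine (Primrec.nat_add.comp prim_toNat prim_toNat_neg).of_eq fun z => ?_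
  omega

/-- coefficient of the product of the two lists (as ascending coefficient lists) -/
def cv (q b : List ℤ) (i : ℕ) : ℤ :=
  ((List.range (i + 1)).map (fun j => q.getD j 0 * b.getD (i - j) 0)).foldr (fun x s => x + s) 0

/-- sum of the absolute values of the first `n` coefficients of the product -/
def ln (q b : List ℤ) (n : ℕ) : ℕ :=
  ((List.range n).map (fun i => (cv q b i).natAbs)).foldr (fun x s => x + s) 0

/-- radius of the range in which the next coefficient is searched -/
def rad (q : List ℤ) (l : ℕ) (b : List ℤ) : ℕ := l + (cv q b b.length).natAbs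

/-- admissible truncations -/
def ok (q : List ℤ) (l : ℕ) (c : List ℤ) : Prop := c.getD 0 0 ≠ 0 ∧ ln q c c.length < l

instance (q : List ℤ) (l : ℕ) (c : List ℤ) : Decidable (ok q l c) := by
  unfold ok; infer_instance

/-- extension of a truncation by one coefficient -/
def ext (q : List ℤ) (l : ℕ) (b : List ℤ) : List (List ℤ) :=
  (List.range (2 * rad q l b + 1)).filterMap
    (fun i : ℕ => if ok q l (b ++ [(i : ℤ) - (rad q l b : ℤ)]) then
      some (b ++ [(i : ℤ) - (rad q l b : ℤ)]) else none)

/-- the tree of admissible truncations, level by level -/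
def S (q : List ℤ) (l : ℕ) (g : ℕ) : List (List ℤ) :=
  Nat.rec [[]] (fun _ s => s.flatMap (ext q l)) g

/-! ### primitive recursiveness -/

section prim
variable {α : Type} [Primcodable α]

theorem prim_addI : Primrec₂ (fun (_ : α) (p : ℤ × ℤ) => p.1 + p.2) := by
  have h : Primrec (fun x : α × (ℤ × ℤ) => x.2.1 + x.2.2) :=
    prim_int_add.comp (Primrec.fst.comp Primrec.snd) (Primrec.snd.comp Primrec.snd)
  exact h

theorem prim_addN : Primrec₂ (fun (_ : α) (p : ℕ × ℕ) => p.1 + p.2) := by
  have h : Primrec (fun x : α × (ℕ × ℕ) => x.2.1 + x.2.2) :=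
    Primrec.nat_add.comp (Primrec.fst.comp Primrec.snd) (Primrec.snd.comp Primrec.snd)
  exact h

theorem prim_getD {f : α → List ℤ} {n : α → ℕ} (hf : Primrec f) (hn : Primrec n) :
    Primrec (fun a => (f a).getD (n a) 0) :=
  (Primrec.list_getD (0 : ℤ)).comp hf hn

theorem prim_cv {f g : α → List ℤ} {n : α → ℕ} (hf : Primrec f) (hg : Primrec g) (hn : Primrec n) :
    Primrec (fun a => cv (f a) (g a) (n a)) := by
  unfold cv
  have h : Primrec₂ (fun (a : α) (j : ℕ) => (f a).getD j 0 * (g a).getD (n a - j) 0) := by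
    have h' : Primrec (fun x : α × ℕ => (f x.1).getD x.2 0 * (g x.1).getD (n x.1 - x.2) 0) :=
      prim_int_mul.comp (prim_getD (hf.comp Primrec.fst) Primrec.snd)
        (prim_getD (hg.comp Primrec.fst) (Primrec.nat_sub.comp (hn.comp Primrec.fst) Primrec.snd))
    exact h'
  exact Primrec.list_foldr (Primrec.list_map (Primrec.list_range.comp (Primrec.succ.comp hn)) h)
    (Primrec.const 0) prim_addI

theorem prim_ln {f g : α → List ℤ} {n : α → ℕ} (hf : Primrec f) (hg : Primrec g) (hn : Primrec n) :
    Primrec (fun a => ln (f a) (g a) (n a)) := by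
  unfold ln
  have h : Primrec₂ (fun (a : α) (i : ℕ) => (cv (f a) (g a) i).natAbs) := by
    have h' : Primrec (fun x : α × ℕ => (cv (f x.1) (g x.1) x.2).natAbs) :=
      prim_natAbs.comp (prim_cv (hf.comp Primrec.fst) (hg.comp Primrec.fst) Primrec.snd)
    exact h'
  exact Primrec.list_foldr (Primrec.list_map (Primrec.list_range.comp hn) h)
    (Primrec.const 0) prim_addN

theorem prim_rad {f g : α → List ℤ} {n : α → ℕ} (hf : Primrec f) (hn : Primrec n)
    (hg : Primrec g) : Primrec (fun a => rad (f a) (n a) (g a)) := by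
  unfold rad
  exact Primrec.nat_add.comp hn (prim_natAbs.comp (prim_cv hf hg (Primrec.list_length.comp hg)))

theorem prim_ok {f g : α → List ℤ} {n : α → ℕ} (hf : Primrec f) (hn : Primrec n)
    (hg : Primrec g) : PrimrecPred (fun a => ok (f a) (n a) (g a)) := by
  unfold ok
  refine PrimrecPred.and (PrimrecPred.not ?_) ?_
  · exact Primrec.eq.comp (prim_getD hg (Primrec.const 0)) (Primrec.const 0)
  · exact Primrec.nat_lt.comp (prim_ln hf hg (Primrec.list_length.comp hg)) hn

theorem prim_ext {f g : α → List ℤ} {n : α → ℕ} (hf : Primrec f) (hn : Primrec n)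
    (hg : Primrec g) : Primrec (fun a => ext (f a) (n a) (g a)) := by
  unfold ext
  have hr := prim_rad hf hn hg
  have hc : Primrec (fun p : α × ℕ =>
      g p.1 ++ [(p.2 : ℤ) - (rad (f p.1) (n p.1) (g p.1) : ℤ)]) := by
    refine Primrec.list_concat.comp (hg.comp Primrec.fst) ?_
    exact prim_natSub.comp Primrec.snd (hr.comp Primrec.fst)
  refine Primrec.listFilterMap (Primrec.list_range.comp (Primrec.succ.comp
    (Primrec.nat_mul.comp (Primrec.const 2) hr))) ?_
  refine Primrec₂.mk ?_
  refine Primrec.ite ?_ (Primrec.option_some.comp hc) (Primrec.const none)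
  exact prim_ok (hf.comp Primrec.fst) (hn.comp Primrec.fst) hc

theorem prim_S {f : α → List ℤ} {n g : α → ℕ} (hf : Primrec f) (hn : Primrec n)
    (hg : Primrec g) : Primrec (fun a => S (f a) (n a) (g a)) := by
  unfold S
  have h : Primrec (fun p : α × (ℕ × List (List ℤ)) => p.2.2.flatMap (ext (f p.1) (n p.1))) := by
    refine Primrec.list_flatMap (Primrec.snd.comp Primrec.snd) ?_
    exact prim_ext (α := (α × (ℕ × List (List ℤ))) × List ℤ) (hf.comp (Primrec.fst.comp Primrec.fst))
      (hn.comp (Primrec.fst.comp Primrec.fst)) Primrec.snd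
  exact Primrec.nat_rec' (h := fun (a : α) (p : ℕ × List (List ℤ)) => p.2.flatMap (ext (f a) (n a)))
    hg (Primrec.const [[]]) h

end prim

/-- the test applied to a candidate -/
def test (l : List ℤ) (w : (List ℤ × List ℤ) × ℕ) : Prop :=
  (l.getD 0 0).natAbs < 2 ∨
  (1 < ln [1] w.1.1 w.1.1.length ∧ 1 < ln [1] w.1.2 w.1.2.length ∧
    ∀ i ∈ List.range (l.length + w.1.1.length + w.1.2.length), cv w.1.1 w.1.2 i = l.getD i 0) ∨
  (w.1.2.getD 0 0 ≠ 0 ∧ S l (ln l w.1.2 (l.length + w.1.2.length)) w.2 = [])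

/-- the output -/
def out (l : List ℤ) (w : (List ℤ × List ℤ) × ℕ) : List ℤ :=
  (List.range (l.length + w.1.2.length - 1)).map (cv l w.1.2)

theorem prim_out : Primrec₂ out := by
  unfold out
  refine Primrec₂.mk ?_
  refine Primrec.list_map (Primrec.list_range.comp (Primrec.nat_sub.comp
    (Primrec.nat_add.comp (Primrec.list_length.comp Primrec.fst)
      (Primrec.list_length.comp (Primrec.snd.comp (Primrec.fst.comp Primrec.snd))))
    (Primrec.const 1))) ?_
  refine Primrec₂.mk ?_
  exact prim_cv (Primrec.fst.comp Primrec.fst)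
    (Primrec.snd.comp (Primrec.fst.comp (Primrec.snd.comp Primrec.fst))) Primrec.snd

theorem prim_test : PrimrecPred (fun p : List ℤ × ((List ℤ × List ℤ) × ℕ) => test p.1 p.2) := by
  unfold test
  have hl : Primrec (fun p : List ℤ × ((List ℤ × List ℤ) × ℕ) => p.1) := Primrec.fst
  have ha : Primrec (fun p : List ℤ × ((List ℤ × List ℤ) × ℕ) => p.2.1.1) :=
    Primrec.fst.comp (Primrec.fst.comp Primrec.snd)
  have ht : Primrec (fun p : List ℤ × ((List ℤ × List ℤ) × ℕ) => p.2.1.2) :=
    Primrec.snd.comp (Primrec.fst.comp Primrec.snd)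
  have hg : Primrec (fun p : List ℤ × ((List ℤ × List ℤ) × ℕ) => p.2.2) :=
    Primrec.snd.comp Primrec.snd
  refine PrimrecPred.or ?_ (PrimrecPred.or (PrimrecPred.and ?_ (PrimrecPred.and ?_ ?_))
    (PrimrecPred.and (PrimrecPred.not ?_) ?_))
  · exact Primrec.nat_lt.comp (prim_natAbs.comp (prim_getD hl (Primrec.const 0))) (Primrec.const 2)
  · exact Primrec.nat_lt.comp (Primrec.const 1) (prim_ln (Primrec.const _) ha (Primrec.list_length.comp ha))
  · exact Primrec.nat_lt.comp (Primrec.const 1) (prim_ln (Primrec.const _) ht (Primrec.list_length.comp ht))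
  · have hR : PrimrecRel (fun (i : ℕ) (p : List ℤ × ((List ℤ × List ℤ) × ℕ)) =>
        cv p.2.1.1 p.2.1.2 i = p.1.getD i 0) := by
      have : PrimrecPred (fun x : ℕ × (List ℤ × ((List ℤ × List ℤ) × ℕ)) =>
          cv x.2.2.1.1 x.2.2.1.2 x.1 = x.2.1.getD x.1 0) :=
        Primrec.eq.comp (prim_cv (ha.comp Primrec.snd) (ht.comp Primrec.snd) Primrec.fst)
          (prim_getD (hl.comp Primrec.snd) Primrec.fst)
      exact this.primrecRel
    exact PrimrecRel.comp (α := List ℤ × ((List ℤ × List ℤ) × ℕ))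
      (f := fun p => List.range (p.1.length + p.2.1.1.length + p.2.1.2.length)) (g := fun p => p)
      (R := fun (L : List ℕ) (p : List ℤ × ((List ℤ × List ℤ) × ℕ)) => ∀ i ∈ L,
        cv p.2.1.1 p.2.1.2 i = p.1.getD i 0) (hR.forall_mem_list)
      (Primrec.list_range.comp (Primrec.nat_add.comp (Primrec.nat_add.comp
      (Primrec.list_length.comp hl) (Primrec.list_length.comp ha)) (Primrec.list_length.comp ht)))
      Primrec.id
  · exact Primrec.eq.comp (prim_getD ht (Primrec.const 0)) (Primrec.const 0)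
  · exact Primrec.eq.comp (prim_S hl (prim_ln hl ht (Primrec.nat_add.comp
      (Primrec.list_length.comp hl) (Primrec.list_length.comp ht))) hg) (Primrec.const [])

end H110.ML
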