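import Mathlib
import Pool.Agent.H110.ML.Prim

set_option autoImplicit false

open Polynomial Finset

namespace H110.ML

/-- the length of a polynomial: sum of the absolute values of its coefficients -/
noncomputable def len (F : ℤ[X]) : ℕ := F.sum fun _ a => a.natAbs

theorem len_eq (F : ℤ[X]) (n : ℕ) (h : F.natDegree < n) :
    len F = ∑ i ∈ range n, (F.coeff i).natAbs :=
  Polynomial.sum_over_range' F (fun _ => rfl) n h

theorem sum_le_len (F : ℤ[X]) (n : ℕ) : ∑ i ∈ range n, (F.coeff i).natAbs ≤ len F := by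
  rw [len_eq F (n + F.natDegree + 1) (by omega)]
  exact sum_le_sum_of_subset (range_subset_range.2 (by omega))

theorem coeff_le_len (F : ℤ[X]) (n : ℕ) : (F.coeff n).natAbs ≤ len F := by
  refine le_trans ?_ (sum_le_len F (n + 1))
  rw [sum_range_succ]; omega

theorem coeff_mul_range (F G : ℤ[X]) (n : ℕ) :
    (F * G).coeff n = ∑ k ∈ range (n + 1), F.coeff k * G.coeff (n - k) := by
  rw [coeff_mul]
  exact Finset.Nat.sum_antidiagonal_eq_sum_range_succ (fun a b => F.coeff a * G.coeff b) n

/-- Krull intersection: formal divisibility by an irreducible polynomial with non-unit constant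
term implies divisibility. -/
theorem krull (Q : ℤ[X]) (hQ : Irreducible Q) (h0 : ¬ IsUnit (Q.coeff 0)) (F : ℤ[X]) (B : ℕ → ℤ)
    (h : ∀ i, F.coeff i = ∑ j ∈ range (i + 1), Q.coeff j * B (i - j)) : Q ∣ F := by
  have hprime : Prime Q := hQ.prime
  have : (Ideal.span {Q}).IsPrime := (Ideal.span_singleton_prime hprime.ne_zero).2 hprime
  set I : Ideal (ℤ[X] ⧸ Ideal.span {Q}) := Ideal.span {Ideal.Quotient.mk _ X} with hI
  have hItop : I ≠ ⊤ := by
    intro htop
    rw [hI, Ideal.span_singleton_eq_top] at htop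
    obtain ⟨v, hv⟩ := htop.exists_right_inv
    obtain ⟨v, rfl⟩ := Ideal.Quotient.mk_surjective v
    rw [← map_mul, ← map_one (Ideal.Quotient.mk (Ideal.span {Q})), Ideal.Quotient.eq,
      Ideal.mem_span_singleton] at hv
    obtain ⟨w, hw⟩ := hv
    have := congrArg (fun p => Polynomial.coeff p 0) hw
    simp only [coeff_sub, mul_coeff_zero, coeff_X_zero, coeff_one_zero, zero_mul, zero_sub] at this
    apply h0
    rw [Int.isUnit_iff]
    have h3 : Q.coeff 0 * (- w.coeff 0) = 1 := by linarith
    exact Int.eq_one_or_neg_one_of_mul_eq_one h3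
  have hbot := Ideal.iInf_pow_eq_bot_of_isDomain I hItop
  rw [← Ideal.mem_span_singleton, ← Ideal.Quotient.eq_zero_iff_mem]
  have hmem : Ideal.Quotient.mk (Ideal.span {Q}) F ∈ (⨅ i : ℕ, I ^ i) := by
    rw [Ideal.mem_iInf]
    intro g
    have hdvd : (X : ℤ[X]) ^ g ∣ F - Q * ∑ i ∈ range g, C (B i) * X ^ i := by
      rw [X_pow_dvd_iff]
      intro d hd
      rw [coeff_sub, coeff_mul_range, h d, sub_eq_zero]
      refine Finset.sum_congr rfl fun j hj => ?_
      congr 1
      rw [finsetSum_coeff]
      simp only [coeff_C_mul, coeff_X_pow]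
      rw [Finset.sum_eq_single (d - j)]
      · simp
      · intro b _ hb
        rw [if_neg (Ne.symm hb)]; simp
      · intro hn
        exfalso; apply hn; rw [Finset.mem_range]; omega
    obtain ⟨W, hW⟩ := hdvd
    have h2 : Ideal.Quotient.mk (Ideal.span {Q}) F =
        (Ideal.Quotient.mk (Ideal.span {Q}) X) ^ g * Ideal.Quotient.mk (Ideal.span {Q}) W := by
      rw [← map_pow, ← map_mul, ← hW, map_sub, map_mul]
      have : Ideal.Quotient.mk (Ideal.span {Q}) Q = 0 :=
        Ideal.Quotient.eq_zero_iff_mem.2 (Ideal.mem_span_singleton_self Q)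
      rw [this, zero_mul, sub_zero]
    rw [h2, hI, Ideal.span_singleton_pow]
    exact Ideal.mul_mem_right _ _ (Ideal.mem_span_singleton_self _)
  rw [hbot] at hmem
  simpa using hmem

/-- compactness: a coherent choice through a finitely branching tree -/
theorem konig (S : ℕ → List (List ℤ)) (hlen : ∀ g c, c ∈ S g → c.length = g)
    (hpre : ∀ g c, c ∈ S (g + 1) → c.take g ∈ S g) (hne : ∀ g, S g ≠ []) :
    ∃ B : ℕ → ℤ, ∀ g, (List.range g).map B ∈ S g := by
  choose s hs using fun g => List.exists_mem_of_ne_nil (S g) (hne g)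
  have htake : ∀ k d c, c ∈ S (k + d) → c.take k ∈ S k := by
    intro k d
    induction d with
    | zero => intro c hc; rw [List.take_of_length_le]; exact hc; rw [hlen _ _ hc]; omega
    | succ d ih =>
      intro c hc
      have h1 := hpre (k + d) c hc
      have h2 := ih _ h1
      rwa [List.take_take, min_eq_left (by omega)] at h2
  have hev : ∀ k, ∃ c ∈ S k, ∀ᶠ g in (Filter.hyperfilter ℕ : Filter ℕ), (s g).take k = c := by
    intro k
    have hfin : {c | c ∈ S k}.Finite := List.finite_toSet (S k)
    have h1 : ∀ᶠ g in (Filter.hyperfilter ℕ : Filter ℕ), ∃ c ∈ {c | c ∈ S k}, (s g).take k = c := by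
      have : ∀ᶠ g in (Filter.cofinite : Filter ℕ), k ≤ g := by
        rw [Nat.cofinite_eq_atTop]; exact Filter.eventually_ge_atTop k
      refine (this.filter_mono (Filter.hyperfilter_le_cofinite)).mono fun g hg => ?_
      obtain ⟨d, rfl⟩ := Nat.exists_eq_add_of_le hg
      exact ⟨_, htake k d _ (hs _), rfl⟩
    rw [Ultrafilter.eventually_exists_mem_iff hfin] at h1
    obtain ⟨c, hc, h⟩ := h1
    exact ⟨c, hc, h⟩
  choose c hc hcev using hev
  refine ⟨fun i => (c (i + 1)).getD i 0, fun g => ?_⟩
  have : (List.range g).map (fun i => (c (i + 1)).getD i 0) = c g := by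
    apply List.ext_getElem
    · simp [hlen g _ (hc g)]
    · intro i h1 h2
      simp only [List.length_map, List.length_range] at h1
      simp only [List.getElem_map, List.getElem_range]
      obtain ⟨n, hn1, hn2⟩ := ((hcev g).and (hcev (i + 1))).exists
      rw [← hn2]
      have h3 : (c g)[i] = (c g).getD i 0 := by
        rw [List.getD_eq_getElem _ _ h2]
      rw [h3, ← hn1]
      simp only [List.getD_eq_getElem?_getD, List.getElem?_take]
      rw [if_pos (by omega), if_pos h1]
  rw [this]; exact hc g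

end H110.ML
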