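import Mathlib
import Pool.Agent.H110.ML.Prim
import Pool.Agent.H110.ML.Alg

set_option autoImplicit false

open Polynomial Finset

namespace H110.ML

/-- the polynomial with ascending coefficient list `t` -/
noncomputable def asc (t : List ℤ) : ℤ[X] := ∑ i ∈ range t.length, C (t.getD i 0) * X ^ i

theorem getD_of_le (t : List ℤ) (i : ℕ) (h : t.length ≤ i) : t.getD i 0 = 0 := by
  rw [List.getD_eq_default]; exact h

theorem asc_coeff (t : List ℤ) (i : ℕ) : (asc t).coeff i = t.getD i 0 := by
  rw [asc, finsetSum_coeff]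
  simp only [coeff_C_mul, coeff_X_pow]
  by_cases hi : i < t.length
  · rw [Finset.sum_eq_single i]
    · simp
    · intro b _ hb
      rw [if_neg (Ne.symm hb)]; simp
    · intro hn
      exact absurd (Finset.mem_range.2 hi) hn
  · rw [Finset.sum_eq_zero, getD_of_le t i (by omega)]
    intro b hb
    rw [Finset.mem_range] at hb
    rw [if_neg (by omega)]; simp

theorem foldrZ (f : ℕ → ℤ) (n : ℕ) :
    ((List.range n).map f).foldr (fun x s => x + s) 0 = ∑ i ∈ range n, f i := rfl

theorem foldrN (f : ℕ → ℕ) (n : ℕ) :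
    ((List.range n).map f).foldr (fun x s => x + s) 0 = ∑ i ∈ range n, f i := rfl

theorem cv_eq' (q b : List ℤ) (i : ℕ) :
    cv q b i = ∑ j ∈ range (i + 1), q.getD j 0 * b.getD (i - j) 0 := by
  rw [cv, foldrZ]

theorem cv_eq (q b : List ℤ) (i : ℕ) : cv q b i = (asc q * asc b).coeff i := by
  rw [cv_eq', coeff_mul_range]
  simp only [asc_coeff]

theorem ln_eq (q b : List ℤ) (n : ℕ) : ln q b n = ∑ i ∈ range n, (cv q b i).natAbs := by
  rw [ln, foldrN]

theorem cv_zero_of_le (q b : List ℤ) (i : ℕ) (h : q.length + b.length ≤ i + 1) : cv q b i = 0 := by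
  rw [cv_eq']
  refine Finset.sum_eq_zero fun j hj => ?_
  rw [Finset.mem_range] at hj
  by_cases h1 : q.length ≤ j
  · rw [getD_of_le q j h1]; simp
  · rw [getD_of_le b (i - j) (by omega)]; simp

theorem len_eq' (F : ℤ[X]) (n : ℕ) (h : ∀ i, n ≤ i → F.coeff i = 0) :
    len F = ∑ i ∈ range n, (F.coeff i).natAbs := by
  rw [len_eq F (n + F.natDegree + 1) (by omega)]
  symm
  refine Finset.sum_subset (range_subset_range.2 (by omega)) fun i _ hi => ?_
  rw [Finset.mem_range, not_lt] at hi
  rw [h i hi]; rfl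

theorem ln_len (q b : List ℤ) (n : ℕ) (h : q.length + b.length ≤ n + 1) :
    ln q b n = len (asc q * asc b) := by
  rw [ln_eq, len_eq' _ n]
  · simp only [cv_eq]
  · intro i hi
    rw [← cv_eq]; exact cv_zero_of_le q b i (by omega)

theorem asc_one : asc [1] = 1 := by
  simp [asc]

/-! ### the tree -/

theorem S_zero (q : List ℤ) (l : ℕ) : S q l 0 = [[]] := rfl
theorem S_succ (q : List ℤ) (l g : ℕ) : S q l (g + 1) = (S q l g).flatMap (ext q l) := rfl

theorem mem_ext (q : List ℤ) (l : ℕ) (b c : List ℤ) :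
    c ∈ ext q l b ↔ ∃ i : ℕ, i < 2 * rad q l b + 1 ∧ ok q l (b ++ [(i : ℤ) - (rad q l b : ℤ)]) ∧
      c = b ++ [(i : ℤ) - (rad q l b : ℤ)] := by
  unfold ext
  rw [List.mem_filterMap]
  constructor
  · rintro ⟨i, hi, h⟩
    rw [List.mem_range] at hi
    split_ifs at h with hok
    exact ⟨i, hi, hok, (Option.some.inj h).symm⟩
  · rintro ⟨i, hi, hok, h⟩
    refine ⟨i, List.mem_range.2 hi, ?_⟩
    rw [if_pos hok, h]

theorem S_len (q : List ℤ) (l : ℕ) : ∀ g c, c ∈ S q l g → c.length = g := by
  intro g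
  induction g with
  | zero => intro c hc; rw [S_zero, List.mem_singleton] at hc; rw [hc]; rfl
  | succ g ih =>
    intro c hc
    rw [S_succ, List.mem_flatMap] at hc
    obtain ⟨b, hb, hc⟩ := hc
    rw [mem_ext] at hc
    obtain ⟨i, _, _, rfl⟩ := hc
    simp [ih b hb]

theorem S_pre (q : List ℤ) (l : ℕ) : ∀ g c, c ∈ S q l (g + 1) → c.take g ∈ S q l g := by
  intro g c hc
  rw [S_succ, List.mem_flatMap] at hc
  obtain ⟨b, hb, hc⟩ := hc
  rw [mem_ext] at hc
  obtain ⟨i, _, _, rfl⟩ := hc
  have := S_len q l g b hb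
  rw [← this, List.take_left]
  rw [this]; exact hb

theorem S_ok (q : List ℤ) (l : ℕ) : ∀ g c, c ∈ S q l (g + 1) → ok q l c := by
  intro g c hc
  rw [S_succ, List.mem_flatMap] at hc
  obtain ⟨b, hb, hc⟩ := hc
  rw [mem_ext] at hc
  obtain ⟨i, _, h, rfl⟩ := hc
  exact h

theorem getD_map_range (B : ℕ → ℤ) (n i : ℕ) :
    ((List.range n).map B).getD i 0 = if i < n then B i else 0 := by
  by_cases h : i < n
  · rw [if_pos h, List.getD_eq_getElem _ _ (by simpa using h)]
    simp
  · rw [if_neg h, getD_of_le]; simp; omega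

theorem cv_trunc (q : List ℤ) (B : ℕ → ℤ) (n i : ℕ) (h : i < n) :
    cv q ((List.range n).map B) i = ∑ j ∈ range (i + 1), q.getD j 0 * B (i - j) := by
  rw [cv_eq']
  refine Finset.sum_congr rfl fun j hj => ?_
  rw [getD_map_range, if_pos (by omega)]

/-- completeness: every short multiple survives in the tree -/
theorem complete (q : List ℤ) (l : ℕ) (T : ℤ[X]) (hq : q.getD 0 0 ≠ 0) (hT : T.coeff 0 ≠ 0)
    (hl : len (asc q * T) < l) : ∀ g, (List.range g).map T.coeff ∈ S q l g := by
  have hcv : ∀ n i, i < n → cv q ((List.range n).map T.coeff) i = (asc q * T).coeff i := by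
    intro n i hi
    rw [cv_trunc q _ n i hi, coeff_mul_range]
    simp only [asc_coeff]
  intro g
  induction g with
  | zero => simp [S_zero]
  | succ g ih =>
    rw [S_succ, List.mem_flatMap]
    refine ⟨_, ih, ?_⟩
    rw [mem_ext]
    set b := (List.range g).map T.coeff with hb
    have hblen : b.length = g := by simp [hb]
    have hbound : (T.coeff g).natAbs ≤ rad q l b := by
      have h1 : (asc q * T).coeff g = cv q b g + q.getD 0 0 * T.coeff g := by
        rw [coeff_mul_range, cv_eq', Finset.sum_range_succ', Finset.sum_range_succ']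
        simp only [asc_coeff, Nat.sub_zero]
        have h2 : b.getD g 0 = 0 := getD_of_le b g (by omega)
        rw [h2, mul_zero, add_zero]
        congr 1
        refine Finset.sum_congr rfl fun j hj => ?_
        rw [Finset.mem_range] at hj
        rw [hb, getD_map_range, if_pos (by omega)]
      have h2 := coeff_le_len (asc q * T) g
      have h3 : (q.getD 0 0 * T.coeff g).natAbs ≤ l + (cv q b g).natAbs := by
        have : q.getD 0 0 * T.coeff g = (asc q * T).coeff g - cv q b g := by rw [h1]; ring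
        rw [this]; omega
      rw [Int.natAbs_mul] at h3
      have h4 : 1 ≤ (q.getD 0 0).natAbs := by
        have := Int.natAbs_ne_zero.2 hq
        omega
      unfold rad
      rw [hblen]
      calc (T.coeff g).natAbs = 1 * (T.coeff g).natAbs := (one_mul _).symm
        _ ≤ (q.getD 0 0).natAbs * (T.coeff g).natAbs := Nat.mul_le_mul_right _ h4
        _ ≤ _ := h3
    have happ : (List.range (g + 1)).map T.coeff = b ++ [T.coeff g] := by
      rw [List.range_succ, List.map_append, hb]; rfl
    refine ⟨(T.coeff g + (rad q l b : ℤ)).toNat, by omega, ?_⟩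
    have h5 : (((T.coeff g + (rad q l b : ℤ)).toNat : ℕ) : ℤ) - (rad q l b : ℤ) = T.coeff g := by
      omega
    rw [h5, ← happ]
    refine ⟨⟨?_, ?_⟩, rfl⟩
    · rw [getD_map_range, if_pos (by omega)]; exact hT
    · rw [ln_eq]
      have : ((List.range (g + 1)).map T.coeff).length = g + 1 := by simp
      rw [this]
      refine lt_of_le_of_lt ?_ hl
      refine le_trans (le_of_eq ?_) (sum_le_len (asc q * T) (g + 1))
      refine Finset.sum_congr rfl fun i hi => ?_
      rw [Finset.mem_range] at hi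
      rw [hcv (g + 1) i hi]

/-- a sequence of integers whose absolute values have bounded partial sums vanishes eventually -/
theorem eventually_zero (A : ℕ → ℤ) (l : ℕ) (h : ∀ g, ∑ i ∈ range g, (A i).natAbs ≤ l) :
    ∃ N, ∀ i, N ≤ i → A i = 0 := by
  by_contra hcon
  push Not at hcon
  have key : ∀ k : ℕ, ∃ g, k ≤ ∑ i ∈ range g, (A i).natAbs := by
    intro k
    induction k with
    | zero => exact ⟨0, by simp⟩
    | succ k ih =>
      obtain ⟨g, hg⟩ := ih
      obtain ⟨i, hi, hA⟩ := hcon g
      refine ⟨i + 1, ?_⟩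
      rw [Finset.sum_range_succ]
      have h1 : ∑ i ∈ range g, (A i).natAbs ≤ ∑ i ∈ range i, (A i).natAbs :=
        sum_le_sum_of_subset (range_subset_range.2 hi)
      have h2 : 1 ≤ (A i).natAbs := by
        have := Int.natAbs_ne_zero.2 hA
        omega
      omega
  obtain ⟨g, hg⟩ := key (l + 1)
  have := h g
  omega

/-- termination: for irreducible `asc q` with non-unit non-zero constant term there is a certified
minimum-length multiple -/
theorem terminate (q : List ℤ) (hirr : Irreducible (asc q)) (h0 : 2 ≤ (q.getD 0 0).natAbs) :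
    ∃ (t : List ℤ) (g : ℕ), t.getD 0 0 ≠ 0 ∧ S q (len (asc q * asc t)) g = [] := by
  classical
  have hW : ∃ n, ∃ T : ℤ[X], T.coeff 0 ≠ 0 ∧ len (asc q * T) = n := ⟨_, 1, by simp, rfl⟩
  obtain ⟨T, hT0, hTn⟩ := Nat.find_spec hW
  have hmin : ∀ T' : ℤ[X], T'.coeff 0 ≠ 0 → len (asc q * T) ≤ len (asc q * T') := by
    intro T' hT'
    rw [hTn]
    exact Nat.find_min' hW ⟨T', hT', rfl⟩
  refine ⟨(List.range (T.natDegree + 1)).map T.coeff, ?_⟩
  have hasc : asc ((List.range (T.natDegree + 1)).map T.coeff) = T := by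
    ext i
    rw [asc_coeff, getD_map_range]
    split_ifs with h
    · rfl
    · rw [coeff_eq_zero_of_natDegree_lt]; omega
  rw [hasc]
  by_contra hcon
  push Not at hcon
  have hne : ∀ g, S q (len (asc q * T)) g ≠ [] := by
    intro g
    refine hcon g ?_
    rw [getD_map_range, if_pos (by omega)]; exact hT0
  obtain ⟨B, hB⟩ := konig _ (S_len q _) (S_pre q _) hne
  set A : ℕ → ℤ := fun i => ∑ j ∈ range (i + 1), q.getD j 0 * B (i - j) with hA
  have hsum : ∀ g, ∑ i ∈ range g, (A i).natAbs < len (asc q * T) := by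
    intro g
    have h1 := (S_ok q _ g _ (hB (g + 1))).2
    rw [ln_eq] at h1
    refine lt_of_le_of_lt ?_ h1
    have h2 : ((List.range (g + 1)).map B).length = g + 1 := by simp
    rw [h2, Finset.sum_range_succ]
    refine le_trans (le_of_eq ?_) (Nat.le_add_right _ _)
    refine Finset.sum_congr rfl fun i hi => ?_
    rw [Finset.mem_range] at hi
    rw [cv_trunc q B (g + 1) i (by omega)]
  have hB0 : B 0 ≠ 0 := by
    have h1 := (S_ok q _ 0 _ (hB 1)).1
    rwa [getD_map_range, if_pos (by omega)] at h1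
  obtain ⟨N, hN⟩ := eventually_zero A _ (fun g => (hsum g).le)
  set F : ℤ[X] := asc ((List.range N).map A) with hF
  have hFc : ∀ i, F.coeff i = A i := by
    intro i
    rw [hF, asc_coeff, getD_map_range]
    split_ifs with h
    · rfl
    · rw [hN i (by omega)]
  have hq0 : (asc q).coeff 0 = q.getD 0 0 := asc_coeff q 0
  have hdvd : asc q ∣ F := by
    refine krull (asc q) hirr ?_ F B ?_
    · rw [hq0, Int.isUnit_iff]
      rintro (h | h) <;> rw [h] at h0 <;> simp at h0
    · intro i
      rw [hFc]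
      simp only [hA, asc_coeff]
  obtain ⟨T', hT'⟩ := hdvd
  have hF0 : F.coeff 0 ≠ 0 := by
    rw [hFc]
    simp only [hA]
    rw [zero_add, Finset.sum_range_one]
    refine mul_ne_zero ?_ hB0
    intro h; rw [h] at h0; simp at h0
  have hT'0 : T'.coeff 0 ≠ 0 := by
    intro h
    apply hF0
    rw [hT', mul_coeff_zero, h, mul_zero]
  have h1 := hmin T' hT'0
  rw [← hT', len_eq' F N (fun i hi => by rw [hFc]; exact hN i hi)] at h1
  have h2 := hsum N
  simp only [hFc] at h1
  omega

end H110.ML
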